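import Pool.Agent.H36.ENR.Stmts2

/-! Row CEN of board enr, part 2: `PS F` is centerless. -/

set_option autoImplicit false

namespace Pool.ENR

open Pool.Agent.H81.ENG Pool.Agent.H55.NEU

theorem cen_thm : CENStmt := by
  intro F _ h hh
  obtain ⟨M, rfl⟩ := pr_surj h
  have hconj : ∀ N : SL2 F, pr (M * N * M⁻¹) = pr N := by
    intro N
    have h1 : MulAut.conj (pr M) (pr N) = pr N := by rw [hh]; rfl
    rw [MulAut.conj_apply, ← map_inv, ← map_mul, ← map_mul] at h1
    exact h1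
  have hd := sl_det M
  have hu := hconj (uu 1)
  rw [conj_uu, pr_eq_iff] at hu
  obtain ⟨r, hr, hr'⟩ := hu
  have hr0 : r ≠ 0 := by
    rintro rfl
    rw [mul_zero] at hr
    exact zero_ne_one hr
  have e10 : (0 : F) = r * -(M 1 0 * M 1 0 * 1) := hr' 1 0
  have e00 : (1 : F) = r * (1 - M 0 0 * M 1 0 * 1) := hr' 0 0
  have e01 : (1 : F) = r * (M 0 0 * M 0 0 * 1) := hr' 0 1
  have h10 : M 1 0 = 0 := by
    have h1 : r * (M 1 0 * M 1 0) = 0 := by linear_combination e10
    rcases mul_eq_zero.1 h1 with h2 | h2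
    · exact absurd h2 hr0
    · exact mul_self_eq_zero.1 h2
  have hr1 : r = 1 := by
    rw [h10] at e00
    linear_combination -e00
  have h00 : M 0 0 * M 0 0 = 1 := by
    rw [hr1] at e01
    linear_combination -e01
  have hv := hconj (vv 1)
  rw [conj_vv, pr_eq_iff] at hv
  obtain ⟨r', hr1', hr2'⟩ := hv
  have hr0' : r' ≠ 0 := by
    rintro rfl
    rw [mul_zero] at hr1'
    exact zero_ne_one hr1'
  have f01 : (0 : F) = r' * -(M 0 1 * M 0 1 * 1) := hr2' 0 1
  have h01 : M 0 1 = 0 := by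
    have h1 : r' * (M 0 1 * M 0 1) = 0 := by linear_combination f01
    rcases mul_eq_zero.1 h1 with h2 | h2
    · exact absurd h2 hr0'
    · exact mul_self_eq_zero.1 h2
  have h11 : M 1 1 = M 0 0 := by
    rw [h10, mul_zero, sub_zero] at hd
    linear_combination M 0 0 * hd - M 1 1 * h00
  symm
  rw [← map_one (pr (F := F)), pr_eq_iff]
  refine ⟨M 0 0, h00, ?_⟩
  intro i j
  fin_cases i <;> fin_cases j
  · show M 0 0 = M 0 0 * 1
    rw [mul_one]
  · show M 0 1 = M 0 0 * 0
    rw [mul_zero, h01]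
  · show M 1 0 = M 0 0 * 0
    rw [mul_zero, h10]
  · show M 1 1 = M 0 0 * 1
    rw [mul_one, h11]

end Pool.ENR
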