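import Pool.Agent.H29.ENR.Stmts11

/-!
# Board enr, row CMM: conjugations by matrices
-/

set_option autoImplicit false

namespace Pool.ENR

open Pool.Agent.H81.ENG Pool.Agent.H55.NEU

private theorem cmm_conj {F : Type} [Field F] (M : Matrix (Fin 2) (Fin 2) F) (hM : M.det ≠ 0)
    (X : SL2 F) : ∃ Y : SL2 F, (Y : Matrix (Fin 2) (Fin 2) F) =
      M * (X : Matrix (Fin 2) (Fin 2) F) * M⁻¹ ∧
      (Y : Matrix (Fin 2) (Fin 2) F) * M = M * (X : Matrix (Fin 2) (Fin 2) F) := by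
  have hu : IsUnit M.det := isUnit_iff_ne_zero.mpr hM
  have hdY : (M * (X : Matrix (Fin 2) (Fin 2) F) * M⁻¹).det = 1 := by
    rw [Matrix.det_mul, Matrix.det_mul, Matrix.det_nonsing_inv, Ring.inverse_eq_inv,
      Matrix.SpecialLinearGroup.det_coe, mul_one, mul_inv_cancel₀ hM]
  refine ⟨⟨M * (X : Matrix (Fin 2) (Fin 2) F) * M⁻¹, hdY⟩, rfl, ?_⟩
  show M * (X : Matrix (Fin 2) (Fin 2) F) * M⁻¹ * M = M * (X : Matrix (Fin 2) (Fin 2) F)
  rw [Matrix.mul_assoc, Matrix.nonsing_inv_mul _ hu, Matrix.mul_one]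

/-- a matrix which commutes up to sign with the unipotent `X` commutes with it -/
private theorem cmm_comm {F : Type} [Field F] (h2 : (2 : F) ≠ 0) (M M' : Matrix (Fin 2) (Fin 2) F)
    (σ : MulAut (PS F)) (hM : M.det ≠ 0) (hM' : M'.det ≠ 0) (h : CM F M σ) (h' : CM F M' σ)
    (X : SL2 F) (hX : (X : Matrix (Fin 2) (Fin 2) F).trace = 2) :
    (M⁻¹ * M') * (X : Matrix (Fin 2) (Fin 2) F) = (X : Matrix (Fin 2) (Fin 2) F) * (M⁻¹ * M') := by
  have hu : IsUnit M.det := isUnit_iff_ne_zero.mpr hM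
  have hu' : IsUnit M'.det := isUnit_iff_ne_zero.mpr hM'
  obtain ⟨Y, hY, hYM⟩ := cmm_conj M hM X
  obtain ⟨Y', hY', hYM'⟩ := cmm_conj M' hM' X
  have e1 := h X Y hYM
  have e2 := h' X Y' hYM'
  have e3 : Pool.Agent.H55.NEU.pr Y = Pool.Agent.H55.NEU.pr Y' := by rw [← e1, ← e2]
  obtain ⟨r, hr, hYY⟩ := pr_eq_iff.mp e3
  have hYY2 : (Y' : Matrix (Fin 2) (Fin 2) F) = r • (Y : Matrix (Fin 2) (Fin 2) F) := by
    ext i j
    rw [Matrix.smul_apply, smul_eq_mul]
    exact hYY i j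
  have t1 : (Y : Matrix (Fin 2) (Fin 2) F).trace = 2 := by
    rw [hY, Matrix.trace_mul_comm, ← Matrix.mul_assoc, Matrix.nonsing_inv_mul _ hu, Matrix.one_mul,
      hX]
  have t2 : (Y' : Matrix (Fin 2) (Fin 2) F).trace = 2 := by
    rw [hY', Matrix.trace_mul_comm, ← Matrix.mul_assoc, Matrix.nonsing_inv_mul _ hu',
      Matrix.one_mul, hX]
  have hr1 : r = 1 := by
    rw [hYY2, Matrix.trace_smul, t1, smul_eq_mul] at t2
    have : (r - 1) * 2 = 0 := by linear_combination t2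
    rcases mul_eq_zero.mp this with h0 | h0
    · exact sub_eq_zero.mp h0
    · exact absurd h0 h2
  rw [hr1, one_smul] at hYY2
  -- now `M' X M'⁻¹ = M X M⁻¹`
  have h3 : (Y : Matrix (Fin 2) (Fin 2) F) * M' = M' * (X : Matrix (Fin 2) (Fin 2) F) := by
    rw [← hYY2]; exact hYM'
  calc (M⁻¹ * M') * (X : Matrix (Fin 2) (Fin 2) F)
      = M⁻¹ * (M' * (X : Matrix (Fin 2) (Fin 2) F)) := Matrix.mul_assoc _ _ _
    _ = M⁻¹ * ((Y : Matrix (Fin 2) (Fin 2) F) * M') := by rw [h3]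
    _ = M⁻¹ * (M * (X : Matrix (Fin 2) (Fin 2) F) * M⁻¹ * M') := by rw [hY]
    _ = (M⁻¹ * M) * (X : Matrix (Fin 2) (Fin 2) F) * (M⁻¹ * M') := by
        simp only [Matrix.mul_assoc]
    _ = (X : Matrix (Fin 2) (Fin 2) F) * (M⁻¹ * M') := by
        rw [Matrix.nonsing_inv_mul _ hu, Matrix.one_mul]

theorem cmm_thm : CMMStmt := by
  intro F _ h2
  refine ⟨?_, ?_, ?_, ?_⟩
  · intro M M' σ σ' hM hM' h h' X X' hX
    have hu' : IsUnit M'.det := isUnit_iff_ne_zero.mpr hM'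
    obtain ⟨Y, hY, hYM⟩ := cmm_conj M' hM' X
    have e1 := h' X Y hYM
    have e2 : (X' : Matrix (Fin 2) (Fin 2) F) * M = M * (Y : Matrix (Fin 2) (Fin 2) F) := by
      calc (X' : Matrix (Fin 2) (Fin 2) F) * M
          = (X' : Matrix (Fin 2) (Fin 2) F) * (M * M') * M'⁻¹ := by
            rw [Matrix.mul_assoc, Matrix.mul_assoc, Matrix.mul_nonsing_inv _ hu', Matrix.mul_one]
        _ = M * M' * (X : Matrix (Fin 2) (Fin 2) F) * M'⁻¹ := by rw [hX]
        _ = M * (M' * (X : Matrix (Fin 2) (Fin 2) F) * M'⁻¹) := by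
            simp only [Matrix.mul_assoc]
        _ = M * (Y : Matrix (Fin 2) (Fin 2) F) := by rw [hY]
    rw [MulAut.mul_apply, e1]
    exact h Y X' e2
  · intro M σ σ' hM h h'
    apply MulEquiv.ext
    intro g
    obtain ⟨X, rfl⟩ := pr_surj g
    obtain ⟨Y, -, hYM⟩ := cmm_conj M hM X
    rw [h X Y hYM, h' X Y hYM]
  · intro M M' σ hM hM' h h'
    have hu : IsUnit M.det := isUnit_iff_ne_zero.mpr hM
    have hX1 := cmm_comm h2 M M' σ hM hM' h h' (mk2 1 1 0 1 (by ring)) (by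
      rw [Matrix.trace_fin_two]
      change (1 : F) + 1 = 2
      norm_num)
    have hX2 := cmm_comm h2 M M' σ hM hM' h h' (mk2 1 0 1 1 (by ring)) (by
      rw [Matrix.trace_fin_two]
      change (1 : F) + 1 = 2
      norm_num)
    obtain ⟨B, hB⟩ : ∃ B : Matrix (Fin 2) (Fin 2) F, B = M⁻¹ * M' := ⟨_, rfl⟩
    rw [← hB] at hX1 hX2
    have c1 : ((mk2 (1 : F) 1 0 1 (by ring) : SL2 F) : Matrix (Fin 2) (Fin 2) F) =
        !![1, 1; 0, 1] := rfl
    have c2 : ((mk2 (1 : F) 0 1 1 (by ring) : SL2 F) : Matrix (Fin 2) (Fin 2) F) =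
        !![1, 0; 1, 1] := rfl
    rw [c1] at hX1
    rw [c2] at hX2
    have p00 := congrFun (congrFun hX1 0) 0
    have p01 := congrFun (congrFun hX1 0) 1
    have q00 := congrFun (congrFun hX2 0) 0
    rw [Matrix.mul_apply, Matrix.mul_apply, Fin.sum_univ_two, Fin.sum_univ_two] at p00 p01 q00
    simp at p00 p01 q00
    have hB1 : B = (B 0 0) • (1 : Matrix (Fin 2) (Fin 2) F) := by
      ext i j
      fin_cases i <;> fin_cases j
      · simp
      · simp [q00]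
      · simp [p00]
      · simp
        linear_combination (-1 : F) * p01
    have hM'' : M' = (B 0 0) • M := by
      calc M' = M * (M⁻¹ * M') := by
            rw [← Matrix.mul_assoc, Matrix.mul_nonsing_inv _ hu, Matrix.one_mul]
        _ = M * B := by rw [hB]
        _ = M * ((B 0 0) • (1 : Matrix (Fin 2) (Fin 2) F)) := by rw [← hB1]
        _ = (B 0 0) • M := by rw [Matrix.mul_smul, Matrix.mul_one]
    refine ⟨B 0 0, ?_, hM''⟩
    intro h0
    apply hM'
    rw [hM'', h0, zero_smul, Matrix.det_zero]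
  · intro x hx X X' hX
    rw [Matrix.mul_smul, Matrix.smul_mul, Matrix.mul_one, Matrix.one_mul] at hX
    have h1 : (X' : Matrix (Fin 2) (Fin 2) F) = (X : Matrix (Fin 2) (Fin 2) F) := by
      have := congrArg (fun Z => x⁻¹ • Z) hX
      simpa [smul_smul, inv_mul_cancel₀ hx] using this
    have h3 : X' = X := Subtype.ext h1
    rw [h3]
    rfl

end Pool.ENR
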