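import Pool.Agent.H29.ENR.Stmts7
import Pool.Agent.H14.ENR.GSE

/-!
# Row GSL of the board `enr`: the section given by an abelian `p`-subgroup on which the automorphism
is a power map, and a `p'`-element
-/

set_option autoImplicit false

namespace Pool.ENR

open Pool.Agent.H81.ENG

namespace GSL

section

variable {T : Type} [Group T] {R : Type} [CommRing R] {N : Subgroup T} {n : T} {f : T → R} {ζ : R}
  {m : ℕ}

theorem gdpow (h : GD N n f ζ m) {x : T} (hx : x ∈ N) (j : ℕ) : f (x ^ j) = j * f x := by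
  induction j with
  | zero => rw [pow_zero, h.one]; simp
  | succ j ih =>
    rw [pow_succ, h.mul _ (N.pow_mem hx j) _ hx, ih]
    push_cast
    ring

/-- the image of the powers of `n` -/
theorem sigpow (h : GD N n f ζ m) (σ : MulAut T) {a : T} (ha : a ∈ N) (hσn : σ n = a * n) (i : ℕ) :
    ∃ y ∈ N, σ (n ^ i) = y * n ^ i ∧ f y = (∑ l ∈ Finset.range i, ζ ^ l) * f a := by
  induction i with
  | zero => exact ⟨1, N.one_mem, by simp, by simp [h.one]⟩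
  | succ i ih =>
    obtain ⟨y, hy, h1, h2⟩ := ih
    have h3 := h.cj y hy
    refine ⟨a * (n * y * n⁻¹), N.mul_mem ha h3.1, ?_, ?_⟩
    · rw [pow_succ', map_mul, h1, hσn]
      group
    · rw [h.mul _ ha _ h3.1, h3.2, h2, Finset.sum_range_succ', ← Finset.sum_congr rfl
        (fun l _ => (pow_succ' ζ l).symm), ← Finset.mul_sum]
      ring

theorem mem_iff_of_finite [Finite T] (σ : MulAut T) (Γ : Subgroup T) (h : ∀ x ∈ Γ, σ x ∈ Γ) (x : T) :
    x ∈ Γ ↔ σ x ∈ Γ := by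
  refine ⟨h x, fun hx => ?_⟩
  have h1 : ∀ (j : ℕ) (y : T), y ∈ Γ → (σ ^ j) y ∈ Γ := by
    intro j
    induction j with
    | zero => intro y hy; simpa using hy
    | succ j ih =>
      intro y hy
      rw [pow_succ', MulAut.mul_apply]
      exact h _ (ih y hy)
  have h2 : 0 < orderOf σ := orderOf_pos σ
  have h3 := h1 (orderOf σ - 1) _ hx
  rw [← MulAut.mul_apply, ← pow_succ, Nat.sub_add_cancel h2, pow_orderOf_eq_one] at h3
  exact h3

theorem core (h : GD N n f ζ m) [Finite T] (hQTL : QTLStmt) (hGRL : GRLStmt) {p r b c lam : ℕ}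
    (σ : MulAut T) (hp : p.Prime) (hp2 : p ≠ 2) (hr : r.Prime) (hrp : r ≠ p) (hb : 1 ≤ b)
    (hc : 1 ≤ c) (hR : GRing R p c) (hζr : ζ ^ r = 1) (hζu : IsUnit (ζ - 1))
    (hσ : ∀ x ∈ N, σ x = x ^ lam) (hlam : lam ≡ 1 [MOD p]) {a : T} (ha : a ∈ N)
    (hσn : σ n = a * n) (hu : IsUnit (f a)) (d : ℕ) (hL : SL (tsh σ (p ^ b)) d) :
    p ^ (b + c) ∣ d := by
  let Γ : Subgroup T := h.sub 1 Set.univ trivial (fun _ _ _ _ _ _ _ => trivial)
    (fun _ _ _ _ => trivial)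
  have hΓ : ∀ t, t ∈ Γ ↔ ∃ x ∈ N, ∃ i : ℕ, t = x * n ^ i := by
    intro t
    constructor
    · rintro ⟨x, hx, -, i, rfl⟩
      exact ⟨x, hx, i, by rw [one_mul]⟩
    · rintro ⟨x, hx, i, rfl⟩
      exact ⟨x, hx, trivial, i, by rw [one_mul]⟩
  let D : Subgroup T := h.sub r {x | f x = 0} h.one
    (fun x hx hxQ y hy hyQ i => by
      show f _ = 0
      rw [h.mul _ hx _ (h.cji _ hy).1, (h.cji _ hy).2, show f x = 0 from hxQ,
        show f y = 0 from hyQ, mul_zero, add_zero])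
    (fun x hx hxQ i => by
      show f _ = 0
      rw [(h.cji _ (N.inv_mem hx)).2, h.inv hx, show f x = 0 from hxQ, neg_zero, mul_zero])
  have hD : ∀ t, t ∈ D ↔ ∃ x ∈ N, f x = 0 ∧ ∃ i : ℕ, t = x * n ^ (r * i) := fun t => Iff.rfl
  have hNΓ : ∀ x ∈ N, x ∈ Γ := fun x hx => (hΓ x).mpr ⟨x, hx, 0, by simp⟩
  have hnΓ : n ∈ Γ := (hΓ n).mpr ⟨1, N.one_mem, 1, by simp⟩
  have hDN : ∀ x ∈ N, (x ∈ D ↔ f x = 0) := by
    intro x hx
    constructor
    · intro hxD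
      obtain ⟨y, hy, hy0, i, rfl⟩ := (hD x).mp hxD
      have h1 : n ^ (r * i) ∈ N := by
        have := N.mul_mem (N.inv_mem hy) hx
        rwa [inv_mul_cancel_left] at this
      rw [h.tr _ h1, mul_one]
      exact hy0
    · intro h0
      exact (hD x).mpr ⟨x, hx, h0, 0, by simp⟩
  have hDn : ∀ g ∈ Γ, ∀ t ∈ D, g * t * g⁻¹ ∈ D := by
    intro g hg t ht
    obtain ⟨y, hy, j, rfl⟩ := (hΓ g).mp hg
    obtain ⟨x, hx, hx0, i, rfl⟩ := (hD t).mp ht
    have h1 := h.cji j hx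
    have h2 := h.cji (r * i) (N.inv_mem hy)
    refine (hD _).mpr ⟨y * (n ^ j * x * (n ^ j)⁻¹) * (n ^ (r * i) * y⁻¹ * (n ^ (r * i))⁻¹),
      N.mul_mem (N.mul_mem hy h1.1) h2.1, ?_, i, ?_⟩
    · rw [h.mul _ (N.mul_mem hy h1.1) _ h2.1, h.mul _ hy _ h1.1, h1.2, h2.2, h.inv hy, hx0,
        pow_mul, hζr, one_pow]
      ring
    · have h3 : n ^ j * n ^ (r * i) = n ^ (r * i) * n ^ j := by
        rw [← pow_add, ← pow_add, add_comm]
      calc y * n ^ j * (x * n ^ (r * i)) * (y * n ^ j)⁻¹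
          = y * (n ^ j * x * (n ^ j)⁻¹) * (n ^ j * n ^ (r * i)) * (n ^ j)⁻¹ * y⁻¹ := by group
        _ = y * (n ^ j * x * (n ^ j)⁻¹) * (n ^ (r * i) * n ^ j) * (n ^ j)⁻¹ * y⁻¹ := by rw [h3]
        _ = _ := by group
  -- the automorphism preserves `Γ` and `D`
  have hσΓ : ∀ x, x ∈ Γ ↔ σ x ∈ Γ := by
    apply mem_iff_of_finite
    intro x hx
    obtain ⟨y, hy, i, rfl⟩ := (hΓ x).mp hx
    obtain ⟨w, hw, h1, -⟩ := sigpow h σ ha hσn i
    refine (hΓ _).mpr ⟨y ^ lam * w, N.mul_mem (N.pow_mem hy lam) hw, i, ?_⟩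
    rw [map_mul, hσ y hy, h1]
    group
  have hσD : ∀ x, x ∈ D ↔ σ x ∈ D := by
    apply mem_iff_of_finite
    intro x hx
    obtain ⟨y, hy, hy0, i, rfl⟩ := (hD x).mp hx
    obtain ⟨w, hw, h1, h2⟩ := sigpow h σ ha hσn (r * i)
    have h3 : ∑ l ∈ Finset.range (r * i), ζ ^ l = 0 := by
      have h4 := mul_geom_sum ζ (r * i)
      rw [pow_mul, hζr, one_pow, sub_self] at h4
      exact (hζu.mul_right_eq_zero).1 h4
    rw [h3, zero_mul] at h2
    refine (hD _).mpr ⟨y ^ lam * w, N.mul_mem (N.pow_mem hy lam) hw, ?_, i, ?_⟩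
    · rw [h.mul _ (N.pow_mem hy lam) _ hw, gdpow h hy, hy0, h2, mul_zero, add_zero]
    · rw [map_mul, hσ y hy, h1]
      group
  let D' : Subgroup Γ := D.subgroupOf Γ
  have hD'n : D'.Normal := by
    constructor
    intro x hx g
    rw [Subgroup.mem_subgroupOf] at hx ⊢
    exact hDn g g.2 x hx
  let q : Γ →* Γ ⧸ D' := QuotientGroup.mk' D'
  have hq1 : ∀ x : Γ, q x = 1 ↔ (x : T) ∈ D := by
    intro x
    rw [← Subgroup.mem_subgroupOf]
    exact QuotientGroup.eq_one_iff x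
  have hqeq : ∀ (x y : T) (hx : x ∈ N) (hy : y ∈ N), f x = f y →
      q ⟨x, hNΓ x hx⟩ = q ⟨y, hNΓ y hy⟩ := by
    intro x y hx hy hf
    rw [← mul_inv_eq_one, ← map_inv, ← map_mul, hq1]
    show x * y⁻¹ ∈ D
    rw [hDN _ (N.mul_mem hx (N.inv_mem hy)), h.mul _ hx _ (N.inv_mem hy), h.inv hy, hf,
      add_neg_cancel]
  -- the induced automorphism
  have hmap : D'.map (restr σ Γ hσΓ : MulAut Γ).toMonoidHom = D' := by
    ext y
    constructor
    · rintro ⟨x, hx, rfl⟩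
      rw [SetLike.mem_coe, Subgroup.mem_subgroupOf] at hx
      rw [Subgroup.mem_subgroupOf]
      exact (hσD _).1 hx
    · intro hy
      rw [Subgroup.mem_subgroupOf] at hy
      refine ⟨(restr σ Γ hσΓ)⁻¹ y, ?_, MulAut.apply_inv_self _ _ _⟩
      rw [SetLike.mem_coe, Subgroup.mem_subgroupOf, hσD]
      have h1 : σ (((restr σ Γ hσΓ)⁻¹ y : Γ) : T) = y := by
        rw [restr_inv_apply]
        exact MulAut.apply_inv_self _ _ _
      rw [h1]
      exact hy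
  let τ : MulAut (Γ ⧸ D') := QuotientGroup.congr D' D' (restr σ Γ hσΓ) hmap
  have hτ : ∀ x : Γ, τ (q x) = q ⟨σ x, (hσΓ x).1 x.2⟩ := fun x => rfl
  choose w hwN hwf using h.sur
  let e : Multiplicative R →* Γ ⧸ D' := MonoidHom.mk' (fun y => q ⟨w y.toAdd, hNΓ _ (hwN _)⟩) (by
    intro x y
    rw [← map_mul]
    refine hqeq _ _ (hwN _) (N.mul_mem (hwN _) (hwN _)) ?_
    rw [hwf, h.mul _ (hwN _) _ (hwN _), hwf, hwf, toAdd_mul])
  have heq : ∀ (x : T) (hx : x ∈ N), q ⟨x, hNΓ x hx⟩ = e (Multiplicative.ofAdd (f x)) := by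
    intro x hx
    exact hqeq x _ hx (hwN _) (by rw [hwf, toAdd_ofAdd])
  have heinj : Function.Injective e := by
    rw [injective_iff_map_eq_one]
    intro y hy
    have h1 : (w y.toAdd) ∈ D := (hq1 _).mp hy
    rw [hDN _ (hwN _), hwf] at h1
    exact h1
  let nq : Γ ⧸ D' := q ⟨n, hnΓ⟩
  have hnconj : ∀ y : R, nq * e (Multiplicative.ofAdd y) * nq⁻¹ = e (Multiplicative.ofAdd (ζ * y))
      := by
    intro y
    obtain ⟨x, hx, rfl⟩ := h.sur y
    rw [← heq x hx, ← (h.cj x hx).2, ← heq _ (h.cj x hx).1, ← map_inv, ← map_mul, ← map_mul]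
    rfl
  refine hGRL (Γ ⧸ D') R p r b c lam e ζ (f a) nq τ hp hp2 hr hrp hb hc hR heinj
    ?_ ?_ hnconj hlam ?_ ?_ hu d ?_
  · intro x
    obtain ⟨⟨x, hx⟩, rfl⟩ := QuotientGroup.mk'_surjective D' x
    obtain ⟨y, hy, i, hyi⟩ := (hΓ x).mp hx
    refine ⟨f y, i, ?_⟩
    rw [← heq y hy, ← map_pow, ← map_mul]
    show q _ = q _
    congr 1
    exact Subtype.ext hyi
  · show (q ⟨n, hnΓ⟩) ^ r = 1
    rw [← map_pow, hq1]
    refine (hD _).mpr ⟨1, N.one_mem, h.one, 1, ?_⟩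
    show n ^ r = _
    rw [one_mul, mul_one]
  · intro y
    obtain ⟨x, hx, rfl⟩ := h.sur y
    rw [← heq x hx, hτ, ← gdpow h hx, ← heq _ (N.pow_mem hx lam)]
    congr 1
    exact Subtype.ext (hσ x hx)
  · show τ (q ⟨n, hnΓ⟩) = _ * q ⟨n, hnΓ⟩
    rw [hτ, ← heq a ha, ← map_mul]
    congr 1
    exact Subtype.ext hσn
  · exact hQTL T (Γ ⧸ D') σ τ Γ hσΓ q (QuotientGroup.mk'_surjective D') (fun x => (hτ x).symm)
      (p ^ b) d (pow_pos hp.pos b) hL

end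

/-! ### The additive part -/

section

variable {M : Type} [AddCommGroup M] (α : M →+ M) {p k : ℕ}

theorem cap (hpM : ∀ x : M, ∃ j : ℕ, p ^ j • x = 0) (hp : p.Prime) (hpk : ¬ p ∣ k)
    (hα : ∀ x, α^[k] x = x) (w : M) (h : α (α w - w) = α w - w) : α w - w = 0 := by
  have h1 : ∀ j : ℕ, α^[j] w - w = j • (α w - w) := by
    intro j
    induction j with
    | zero => simp
    | succ j ih =>
      have h2 : α^[j] w = w + j • (α w - w) := by rw [← ih]; abel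
      rw [Function.iterate_succ_apply', h2, map_add, map_nsmul, h, succ_nsmul]
      abel
  have h2 := h1 k
  rw [hα, sub_self] at h2
  obtain ⟨j, hj⟩ := hpM (α w - w)
  have h3 : addOrderOf (α w - w) ∣ Nat.gcd k (p ^ j) :=
    Nat.dvd_gcd (addOrderOf_dvd_of_nsmul_eq_zero h2.symm) (addOrderOf_dvd_of_nsmul_eq_zero hj)
  have h4 : Nat.Coprime k (p ^ j) :=
    (Nat.Coprime.pow_left _ ((Nat.Prime.coprime_iff_not_dvd hp).mpr hpk)).symm
  rw [h4] at h3
  exact AddMonoid.addOrderOf_eq_one_iff.mp (Nat.dvd_one.mp h3)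

theorem split (hpM : ∀ x : M, ∃ j : ℕ, p ^ j • x = 0) (hp : p.Prime) (hpk : ¬ p ∣ k)
    (hα : ∀ x, α^[k] x = x) (y : M) : ∃ y₀ w, α y₀ = y₀ ∧ y = y₀ + (α w - w) := by
  have h1 : ∀ i : ℕ, ∃ w, α^[i] y - y = α w - w := by
    intro i
    induction i with
    | zero => exact ⟨0, by simp⟩
    | succ i ih =>
      obtain ⟨w, hw⟩ := ih
      refine ⟨α^[i] y + w, ?_⟩
      have h2 : α^[i] y = y + (α w - w) := by rw [← hw]; abel
      rw [Function.iterate_succ_apply', map_add]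
      have h3 : α (α^[i] y) - y = (α (α^[i] y) - α^[i] y) + (α^[i] y - y) := by abel
      rw [h3, hw]
      abel
  have h2 : ∀ j : ℕ, ∃ W, ∑ i ∈ Finset.range j, α^[i] y - j • y = α W - W := by
    intro j
    induction j with
    | zero => exact ⟨0, by simp⟩
    | succ j ih =>
      obtain ⟨W, hW⟩ := ih
      obtain ⟨w, hw⟩ := h1 j
      refine ⟨W + w, ?_⟩
      rw [Finset.sum_range_succ, succ_nsmul, map_add]
      have h3 : ∑ i ∈ Finset.range j, α^[i] y + α^[j] y - (j • y + y) =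
          (∑ i ∈ Finset.range j, α^[i] y - j • y) + (α^[j] y - y) := by abel
      rw [h3, hW, hw]
      abel
  obtain ⟨W, hW⟩ := h2 k
  have h3 : α (∑ i ∈ Finset.range k, α^[i] y) = ∑ i ∈ Finset.range k, α^[i] y := by
    rw [map_sum]
    have h4 : ∑ i ∈ Finset.range k, α (α^[i] y) = ∑ i ∈ Finset.range k, α^[i + 1] y :=
      Finset.sum_congr rfl fun i _ => (Function.iterate_succ_apply' _ _ _).symm
    rw [h4]
    have h5 := Finset.sum_range_succ' (fun i => α^[i] y) k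
    rw [Finset.sum_range_succ, hα, Function.iterate_zero, id] at h5
    exact (add_right_cancel h5).symm
  obtain ⟨j, hj⟩ := hpM y
  have h4 : IsCoprime (k : ℤ) ((p ^ j : ℕ) : ℤ) :=
    Nat.isCoprime_iff_coprime.mpr
      (Nat.Coprime.pow_left _ ((Nat.Prime.coprime_iff_not_dvd hp).mpr hpk)).symm
  obtain ⟨u, v, huv⟩ := h4
  refine ⟨u • ∑ i ∈ Finset.range k, α^[i] y, -(u • W), ?_, ?_⟩
  · rw [map_zsmul, h3]
  · have h5 : y = u • (k • y) := by
      have h6 : (u * (k : ℤ) + v * ((p ^ j : ℕ) : ℤ)) • y = y := by rw [huv, one_zsmul]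
      rw [add_zsmul, mul_zsmul, mul_zsmul, natCast_zsmul, natCast_zsmul, hj, smul_zero,
        add_zero] at h6
      exact h6.symm
    have h7 : k • y = ∑ i ∈ Finset.range k, α^[i] y - (α W - W) := by rw [← hW]; abel
    rw [map_neg, map_zsmul]
    nth_rewrite 1 [h5]
    rw [h7, smul_sub, smul_sub]
    abel

variable {R : Type} [CommRing R]

/-- extension of `π` by zero on the fixed points -/
theorem ext (N : AddSubgroup M) (π : N →+ R) (ζ : R) (hNα : ∀ x, x ∈ N ↔ α x ∈ N)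
    (hπα : ∀ x y : N, (y : M) = α x → π y = ζ * π x) (hζu : IsUnit (ζ - 1)) :
    ∃ (N₂ : AddSubgroup M) (π₂ : N₂ →+ R), (∀ x ∈ N₂, α x ∈ N₂) ∧
      (∀ x y : N₂, (y : M) = α x → π₂ y = ζ * π₂ x) ∧
      ∀ (x y : M) (_ : α x = x) (hy : y ∈ N), ∃ h : x + y ∈ N₂, π₂ ⟨x + y, h⟩ = π ⟨y, hy⟩ := by
  classical
  have wd : ∀ (y x x' : M) (_ : α x = x) (_ : α x' = x') (h : y - x ∈ N) (h' : y - x' ∈ N),
      π ⟨y - x, h⟩ = π ⟨y - x', h'⟩ := by
    intro y x x' hx hx' h h'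
    have h1 : x' - x ∈ N := by
      have := N.sub_mem h h'
      rwa [sub_sub_sub_cancel_left] at this
    have h2 : π ⟨x' - x, h1⟩ = ζ * π ⟨x' - x, h1⟩ := hπα _ _ (by
      show x' - x = α (x' - x)
      rw [map_sub, hx, hx'])
    have h3 : (ζ - 1) * π ⟨x' - x, h1⟩ = 0 := by rw [sub_mul, ← h2, one_mul, sub_self]
    have h4 := (hζu.mul_right_eq_zero).1 h3
    have h5 : (⟨y - x, h⟩ : N) = ⟨y - x', h'⟩ + ⟨x' - x, h1⟩ := by
      apply Subtype.ext
      show y - x = (y - x') + (x' - x)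
      abel
    rw [h5, map_add, h4, add_zero]
  let N₂ : AddSubgroup M :=
    { carrier := {y | ∃ x, α x = x ∧ y - x ∈ N}
      zero_mem' := ⟨0, map_zero α, by rw [sub_zero]; exact N.zero_mem⟩
      add_mem' := by
        rintro a b ⟨x, hx, h⟩ ⟨x', hx', h'⟩
        refine ⟨x + x', by rw [map_add, hx, hx'], ?_⟩
        rw [add_sub_add_comm]
        exact N.add_mem h h'
      neg_mem' := by
        rintro a ⟨x, hx, h⟩
        refine ⟨-x, by rw [map_neg, hx], ?_⟩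
        have := N.neg_mem h
        rwa [neg_sub, ← neg_sub_neg] at this }
  have hN₂ : ∀ y : N₂, ∃ x, α x = x ∧ (y : M) - x ∈ N := fun y => y.2
  choose g hg1 hg2 using hN₂
  have key : ∀ (y : N₂) (x : M) (_ : α x = x) (h : (y : M) - x ∈ N),
      π ⟨(y : M) - g y, hg2 y⟩ = π ⟨(y : M) - x, h⟩ := fun y x hx h =>
    wd y (g y) x (hg1 y) hx (hg2 y) h
  let π₂ : N₂ →+ R := AddMonoidHom.mk' (fun y => π ⟨(y : M) - g y, hg2 y⟩) (by
    intro y y'
    have h1 : ((y + y' : N₂) : M) - (g y + g y') ∈ N := by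
      show (y : M) + y' - (g y + g y') ∈ N
      rw [add_sub_add_comm]
      exact N.add_mem (hg2 y) (hg2 y')
    rw [key (y + y') (g y + g y') (by rw [map_add, hg1, hg1]) h1, ← map_add]
    congr 1
    apply Subtype.ext
    show (y : M) + y' - (g y + g y') = (y - g y) + (y' - g y')
    abel)
  refine ⟨N₂, π₂, ?_, ?_, ?_⟩
  · rintro y ⟨x, hx, h⟩
    refine ⟨x, hx, ?_⟩
    have h1 := (hNα _).1 h
    rwa [map_sub, hx] at h1
  · intro y y' h
    have h1 : (y' : M) - g y ∈ N := by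
      have h2 := (hNα _).1 (hg2 y)
      rw [map_sub, hg1] at h2
      rw [h]
      exact h2
    show π ⟨(y' : M) - g y', hg2 y'⟩ = ζ * π ⟨(y : M) - g y, hg2 y⟩
    rw [key y' (g y) (hg1 y) h1]
    refine hπα _ _ ?_
    show (y' : M) - g y = α ((y : M) - g y)
    rw [map_sub, hg1, h]
  · intro x y hx hy
    have h1 : x + y ∈ N₂ := ⟨x, hx, by rw [add_sub_cancel_left]; exact hy⟩
    refine ⟨h1, ?_⟩
    have h2 : ((⟨x + y, h1⟩ : N₂) : M) - x ∈ N := by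
      show x + y - x ∈ N
      rw [add_sub_cancel_left]
      exact hy
    show π ⟨((⟨x + y, h1⟩ : N₂) : M) - g ⟨x + y, h1⟩, hg2 _⟩ = _
    rw [key ⟨x + y, h1⟩ x hx h2]
    congr 1
    apply Subtype.ext
    exact add_sub_cancel_left x y

end

end GSL

open GSL in
theorem gsl_thm (hQTL : QTLStmt) (hGRL : GRLStmt) (hMOD : MODStmt) : GSLStmt := by
  intro T _ _ p c N₀ σ hp hp2 hc hσN ⟨A, n, k, lam, hA, hAc, hAσ, hAn, hnk, hpk, haA, x, hxA, hxn⟩
  classical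
  have hk0 : 0 < k := Nat.pos_of_ne_zero (by rintro rfl; exact hpk (dvd_zero p))
  let _ : CommGroup A :=
    { (inferInstance : Group A) with
      mul_comm := fun x y => Subtype.ext (hAc x x.2 y y.2) }
  have hcjA : ∀ x : A, n * x * n⁻¹ ∈ A := fun x => (hAn x).mp x.2
  let α : Additive A →+ Additive A :=
    MonoidHom.toAdditive (MonoidHom.mk' (fun x : A => (⟨n * x * n⁻¹, hcjA x⟩ : A)) (by
      intro x y
      apply Subtype.ext
      show n * (x * y) * n⁻¹ = (n * x * n⁻¹) * (n * y * n⁻¹)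
      group))
  have hα : ∀ x : A, α (Additive.ofMul x) = Additive.ofMul ⟨n * x * n⁻¹, hcjA x⟩ := fun x => rfl
  have hα' : ∀ x : Additive A, ((Additive.toMul (α x) : A) : T) = n * (Additive.toMul x : A) * n⁻¹ :=
    fun x => rfl
  have hαi : ∀ (k : ℕ) (x : A),
      ((Additive.toMul (α^[k] (Additive.ofMul x)) : A) : T) = n ^ k * x * (n ^ k)⁻¹ := by
    intro k
    induction k with
    | zero => intro x; simp
    | succ k ih =>
      intro x
      rw [Function.iterate_succ_apply, hα, ih]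
      show n ^ k * (n * x * n⁻¹) * (n ^ k)⁻¹ = _
      rw [pow_succ]
      group
  have hαk : ∀ x : Additive A, α^[k] x = x := by
    intro x
    have h1 := hαi k (Additive.toMul x)
    rw [hnk] at h1
    apply Additive.toMul.injective
    apply Subtype.ext
    rw [ofMul_toMul] at h1
    rw [h1]
    group
  have hpM : ∀ x : Additive A, ∃ j : ℕ, p ^ j • x = 0 := by
    intro x
    obtain ⟨j, hj⟩ := hA (Additive.toMul x)
    exact ⟨j, by rw [← ofMul_toMul x, ← ofMul_pow, hj, ofMul_one]⟩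
  -- the element `z`
  let X : Additive A := Additive.ofMul (⟨x, hxA⟩ : A)
  have hX : α (p ^ (c - 1) • X) ≠ p ^ (c - 1) • X := by
    show α (p ^ (c - 1) • Additive.ofMul (⟨x, hxA⟩ : A)) ≠
      p ^ (c - 1) • Additive.ofMul (⟨x, hxA⟩ : A)
    rw [← ofMul_pow, hα]
    intro h1
    apply hxn
    have h2 : n * x ^ (p ^ (c - 1)) * n⁻¹ = x ^ (p ^ (c - 1)) :=
      congrArg Subtype.val (Additive.ofMul.injective h1)
    calc n * x ^ (p ^ (c - 1)) = n * x ^ (p ^ (c - 1)) * n⁻¹ * n := by group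
      _ = _ := by rw [h2]
  have hex : ∃ i : ℕ, p ^ i • (p ^ (c - 1) • (α X - X)) = 0 := hpM _
  obtain ⟨i, hi1, hi2⟩ : ∃ i : ℕ, p ^ i • (p ^ (c - 1) • (α X - X)) ≠ 0 ∧
      p ^ (i + 1) • (p ^ (c - 1) • (α X - X)) = 0 := by
    have h0 : Nat.find hex ≠ 0 := by
      intro h0
      have h1 := Nat.find_spec hex
      rw [h0, pow_zero, one_nsmul, smul_sub, sub_eq_zero, ← map_nsmul] at h1
      exact hX h1
    refine ⟨Nat.find hex - 1, Nat.find_min hex (by omega), ?_⟩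
    rw [Nat.sub_add_cancel (Nat.pos_of_ne_zero h0)]
    exact Nat.find_spec hex
  obtain ⟨w₂, hw₂⟩ : ∃ w₂, w₂ = p ^ i • X := ⟨_, rfl⟩
  obtain ⟨z, hz⟩ : ∃ z, z = α w₂ - w₂ := ⟨_, rfl⟩
  have hzi : z = p ^ i • (α X - X) := by rw [hz, hw₂, map_nsmul, smul_sub]
  have hz1 : p ^ c • z = 0 := by
    have h1 : p ^ c • z = p ^ (i + 1) • (p ^ (c - 1) • (α X - X)) := by
      rw [hzi, smul_smul, smul_smul, ← pow_add, ← pow_add]
      congr 2
      omega
    rw [h1, hi2]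
  have hz0 : p ^ (c - 1) • z ≠ 0 := by
    rw [hzi, smul_comm]
    exact hi1
  have hz2 : α (p ^ (c - 1) • z) ≠ p ^ (c - 1) • z := by
    intro h1
    have h2 : p ^ (c - 1) • z = α (p ^ (c - 1) • w₂) - p ^ (c - 1) • w₂ := by
      rw [hz, smul_sub, map_nsmul]
    apply hz0
    rw [h2]
    rw [h2] at h1
    exact cap α hpM hp hpk hαk _ h1
  obtain ⟨R, _, N₁, π₁, ζ, hR, hπs, hNα, ⟨hzN, hπz⟩, hπα, hζu, hζk⟩ :=
    hMOD (Additive A) p c k α z hp hc hpk hαk hz1 hz2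
  obtain ⟨N, π, hN1, hπ1, hext⟩ := ext α N₁ π₁ ζ hNα hπα hζu
  -- the element `t`
  obtain ⟨a₀, w₁, ha₀, ha⟩ := split α hpM hp hpk hαk (Additive.ofMul (⟨σ n * n⁻¹, haA⟩ : A))
  obtain ⟨t, ht⟩ : ∃ t : A, Additive.ofMul t = w₁ - w₂ := ⟨Additive.toMul (w₁ - w₂), rfl⟩
  refine ⟨t, fun b hb d hL => ?_⟩
  have hσ' : ∀ y ∈ A, (MulAut.conj (t : T) * σ) y = y ^ lam := by
    intro y hy
    rw [MulAut.mul_apply, MulAut.conj_apply, hAσ y hy, hAc t t.2 _ (A.pow_mem hy lam),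
      mul_inv_cancel_right]
  -- `σ' n = a' n`
  obtain ⟨a', ha'⟩ : ∃ a' : A, (a' : T) = (MulAut.conj (t : T) * σ) n * n⁻¹ ∧
      Additive.ofMul a' = a₀ + z := by
    refine ⟨t * ⟨σ n * n⁻¹, haA⟩ * ⟨n * (t⁻¹ : A) * n⁻¹, hcjA t⁻¹⟩, ?_, ?_⟩
    · show (t : T) * (σ n * n⁻¹) * (n * (t : T)⁻¹ * n⁻¹) = _
      rw [MulAut.mul_apply, MulAut.conj_apply]
      group
    · rw [ofMul_mul, ofMul_mul, ← hα, ofMul_inv, map_neg, ht, ha, hz, map_sub]
      abel
  let N' : Subgroup T :=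
    { carrier := {x | ∃ h : x ∈ A, (Additive.ofMul (⟨x, h⟩ : A)) ∈ N}
      one_mem' := ⟨A.one_mem, N.zero_mem⟩
      mul_mem' := by
        rintro x y ⟨hx, hx'⟩ ⟨hy, hy'⟩
        exact ⟨A.mul_mem hx hy, N.add_mem hx' hy'⟩
      inv_mem' := by
        rintro x ⟨hx, hx'⟩
        exact ⟨A.inv_mem hx, N.neg_mem hx'⟩ }
  let f : T → R := fun x =>
    if h : ∃ h : x ∈ A, (Additive.ofMul (⟨x, h⟩ : A)) ∈ N then
      π ⟨Additive.ofMul (⟨x, h.choose⟩ : A), h.choose_spec⟩ else 0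
  have hf : ∀ (x : T) (hx : x ∈ A) (hx' : (Additive.ofMul (⟨x, hx⟩ : A)) ∈ N),
      f x = π ⟨Additive.ofMul (⟨x, hx⟩ : A), hx'⟩ := by
    intro x hx hx'
    exact dif_pos (⟨hx, hx'⟩ : ∃ h : x ∈ A, (Additive.ofMul (⟨x, h⟩ : A)) ∈ N)
  have hmul : ∀ x ∈ N', ∀ y ∈ N', f (x * y) = f x + f y := by
    rintro x ⟨hx, hx'⟩ y ⟨hy, hy'⟩
    rw [hf x hx hx', hf y hy hy', hf (x * y) (A.mul_mem hx hy) (N.add_mem hx' hy'), ← map_add]
    rfl
  have hcj : ∀ x ∈ N', n * x * n⁻¹ ∈ N' ∧ f (n * x * n⁻¹) = ζ * f x := by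
    rintro x ⟨hx, hx'⟩
    have h1 : n * x * n⁻¹ ∈ A := hcjA ⟨x, hx⟩
    have h2 : Additive.ofMul (⟨n * x * n⁻¹, h1⟩ : A) ∈ N := hN1 _ hx'
    refine ⟨⟨h1, h2⟩, ?_⟩
    rw [hf _ h1 h2, hf x hx hx']
    exact hπ1 ⟨_, hx'⟩ ⟨_, h2⟩ rfl
  have hcji : ∀ (k : ℕ) (x : T), x ∈ N' →
      n ^ k * x * (n ^ k)⁻¹ ∈ N' ∧ f (n ^ k * x * (n ^ k)⁻¹) = ζ ^ k * f x := by
    intro k x hx
    induction k with
    | zero => simpa using hx
    | succ k ih =>
      have h1 := hcj _ ih.1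
      have h2 : n ^ (k + 1) * x * (n ^ (k + 1))⁻¹ = n * (n ^ k * x * (n ^ k)⁻¹) * n⁻¹ := by
        rw [pow_succ']; group
      rw [h2]
      refine ⟨h1.1, ?_⟩
      rw [h1.2, ih.2, pow_succ', mul_assoc]
  -- values of `f`
  have hval : ∀ (x y : Additive A) (_ : α x = x) (hy : y ∈ N₁),
      ((Additive.toMul (x + y) : A) : T) ∈ N' ∧
      f ((Additive.toMul (x + y) : A) : T) = π₁ ⟨y, hy⟩ := by
    intro x y hx hy
    obtain ⟨h1, h2⟩ := hext x y hx hy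
    refine ⟨⟨(Additive.toMul (x + y) : A).2, h1⟩, ?_⟩
    rw [hf _ (Additive.toMul (x + y) : A).2 h1]
    exact h2
  have hsur : ∀ y : R, ∃ x ∈ N', f x = y := by
    intro y
    obtain ⟨⟨x, hx⟩, rfl⟩ := hπs y
    obtain ⟨h1, h2⟩ := hval 0 x (map_zero α) hx
    exact ⟨_, h1, h2⟩
  have ha'N : (a' : T) ∈ N' ∧ f a' = 1 := by
    obtain ⟨h1, h2⟩ := hval a₀ z ha₀ hzN
    rw [← ha'.2] at h1 h2
    exact ⟨h1, by rw [← hπz]; exact h2⟩
  have hGD1 : GD N' n f ζ k := by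
    refine ⟨hk0, hnk, hmul, hcj, ?_, hsur, ?_⟩
    · rintro x ⟨hx, -⟩ y ⟨hy, -⟩
      exact hAc x hx y hy
    · rintro i ⟨hi, -⟩
      obtain ⟨j, hj⟩ := hA ⟨_, hi⟩
      have h1 : (n ^ i) ^ (p ^ j) = 1 := congrArg Subtype.val hj
      have h2 : (n ^ i) ^ k = 1 := by
        rw [← pow_mul, mul_comm, pow_mul, hnk, one_pow]
      exact eq_one_coprime h1 h2 (Nat.Coprime.pow_left _ ((Nat.Prime.coprime_iff_not_dvd hp).mpr hpk))
  have hR1 : (1 : R) ≠ 0 := by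
    intro h0
    apply hR.2.2.1
    rw [← one_mul ((p : R) ^ (c - 1)), h0, zero_mul]
  have hζ1 : ζ ≠ 1 := by
    rintro rfl
    rw [sub_self] at hζu
    exact hR1 (isUnit_zero_iff.mp hζu).symm
  have hom : orderOf ζ ∣ k := orderOf_dvd_of_pow_eq_one hζk
  have ho1 : orderOf ζ ≠ 1 := fun h0 => hζ1 (orderOf_eq_one_iff.mp h0)
  have ho0 : 0 < orderOf ζ := Nat.pos_of_dvd_of_pos hom hk0
  set r := Nat.minFac (orderOf ζ) with hrdef
  have hr : r.Prime := Nat.minFac_prime ho1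
  have hro : r ∣ orderOf ζ := Nat.minFac_dvd _
  obtain ⟨k₁, hk₁⟩ := hro
  have hk₁0 : k₁ ≠ 0 := by
    rintro rfl
    rw [mul_zero] at hk₁
    omega
  have hrp : r ≠ p := by
    rintro h0
    apply hpk
    rw [← h0]
    exact (Dvd.intro _ hk₁.symm).trans hom
  have hζr : (ζ ^ k₁) ^ r = 1 := by
    rw [← pow_mul, mul_comm, ← hk₁, pow_orderOf_eq_one]
  have hζk₁ : ζ ^ k₁ ≠ 1 := by
    apply pow_ne_one_of_lt_orderOf hk₁0
    rw [hk₁]
    have := hr.one_lt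
    nlinarith [Nat.pos_of_ne_zero hk₁0]
  have hζku : IsUnit (ζ ^ k₁ - 1) := by
    rcases hR.2.2.2 (ζ ^ k₁ - 1) with h0 | ⟨y, hy⟩
    · exact h0
    · exfalso
      apply hζk₁
      have h1 : (p : R) ∣ ζ ^ k₁ - 1 := ⟨y, hy⟩
      have h2 := dvd_sub_pow_of_dvd_sub h1 (c - 1)
      rw [Nat.sub_add_cancel hc, hR.2.1, zero_dvd_iff, one_pow, sub_eq_zero] at h2
      exact eq_one_coprime h2 hζr
        (Nat.Coprime.pow_left _ ((Nat.coprime_primes hp hr).mpr hrp.symm))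
  have hGD : GD N' (n ^ k₁) f (ζ ^ k₁) k := by
    refine ⟨hk0, ?_, hmul, fun x hx => hcji k₁ x hx, hGD1.com, hsur, ?_⟩
    · rw [← pow_mul, mul_comm, pow_mul, hnk, one_pow]
    · intro i hi
      rw [← pow_mul] at hi ⊢
      exact hGD1.tr _ hi
  have hσn : (MulAut.conj (t : T) * σ) n = a' * n := by
    rw [ha'.1, inv_mul_cancel_right]
  obtain ⟨a₂, ha₂N, ha₂, hfa₂⟩ := sigpow hGD1 (MulAut.conj (t : T) * σ) ha'N.1 hσn k₁
  have hu : IsUnit (f a₂) := by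
    rw [hfa₂, ha'N.2, mul_one]
    have h1 : (ζ - 1) * ∑ l ∈ Finset.range k₁, ζ ^ l = ζ ^ k₁ - 1 := mul_geom_sum ζ k₁
    rw [← h1] at hζku
    exact isUnit_of_mul_isUnit_right hζku
  -- `lam ≡ 1 mod p`
  have hlam : lam ≡ 1 [MOD p] := by
    have hpF : Fact p.Prime := ⟨hp⟩
    obtain ⟨y, hy⟩ : ∃ y : A, Additive.ofMul y = p ^ (c - 1) • z :=
      ⟨Additive.toMul (p ^ (c - 1) • z), rfl⟩
    have hy1 : y ≠ 1 := by
      rintro rfl
      rw [ofMul_one] at hy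
      exact hz0 hy.symm
    have hyp : y ^ p = 1 := by
      apply Additive.ofMul.injective
      rw [ofMul_pow, hy, ofMul_one, smul_smul, ← pow_succ', Nat.sub_add_cancel hc, hz1]
    have hoy : orderOf (y : T) = p := by
      rw [Subgroup.orderOf_coe]
      exact orderOf_eq_prime hyp hy1
    have h1 : ∀ j : ℕ, (σ ^ j) (y : T) = (y : T) ^ (lam ^ j) := by
      intro j
      induction j with
      | zero => simp
      | succ j ih =>
        rw [pow_succ', MulAut.mul_apply, ih, map_pow, hAσ y y.2, ← pow_mul, pow_succ' lam]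
    have h2 := h1 (p ^ N₀)
    rw [hσN, MulAut.one_apply] at h2
    have h3 : (y : T) ^ 1 = (y : T) ^ (lam ^ (p ^ N₀)) := by rw [pow_one]; exact h2
    rw [pow_eq_pow_iff_modEq, hoy] at h3
    have h4 : ((lam ^ (p ^ N₀) : ℕ) : ZMod p) = (lam : ZMod p) := by
      push_cast
      exact ZMod.pow_card_pow _
    have h5 : lam ^ (p ^ N₀) ≡ lam [MOD p] := (ZMod.natCast_eq_natCast_iff _ _ _).1 h4
    exact (h3.trans h5).symm
  exact core hGD hQTL hGRL (MulAut.conj (t : T) * σ) hp hp2 hr hrp hb hc hR hζr hζku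
    (fun y hy => hσ' y hy.1) hlam ha₂N ha₂ hu d hL

end Pool.ENR
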