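import Pool.Agent.H29.ENR.Stmts

/-! Row QTL of board enr: transfer of laws to invariant sections. -/

set_option autoImplicit false

namespace Pool.ENR

open Pool.Agent.H81.ENG

theorem qtl_eqv {A C : Type} [Group A] [Group C] (T : A →* C) (s : MulAut A) (t : MulAut C)
    (hs : ∀ x, T (s x) = t (T x)) (x : A) : T (s⁻¹ x) = t⁻¹ (T x) := by
  rw [← MulAut.inv_apply_self C t (T (s⁻¹ x)), ← hs, MulAut.apply_inv_self]

theorem qtl_zpow {A C : Type} [Group A] [Group C] (T : A →* C) (s : MulAut A) (t : MulAut C)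
    (hs : ∀ x, T (s x) = t (T x)) (z : ℤ) (x : A) : T ((s ^ z) x) = (t ^ z) (T x) := by
  induction z using Int.induction_on generalizing x with
  | zero => simp
  | succ n ih =>
    rw [zpow_add_one, zpow_add_one, MulAut.mul_apply, MulAut.mul_apply, ih, hs]
  | pred n ih =>
    rw [zpow_sub_one, zpow_sub_one, MulAut.mul_apply, MulAut.mul_apply, ih, qtl_eqv T s t hs]

theorem qtl_per {P : Type} [Group P] (τ : MulAut P) (k : ℕ) (ζ : ℤ → P)
    (h : ∀ i : ℤ, ζ (i + k) = τ (ζ i)) (z : ℤ) (j : ℤ) : ζ (j + k * z) = (τ ^ z) (ζ j) := by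
  induction z using Int.induction_on generalizing j with
  | zero => simp
  | succ n ih =>
    have e : j + (k : ℤ) * ((n : ℤ) + 1) = (j + k) + k * n := by ring
    rw [e, ih, h, zpow_add_one, MulAut.mul_apply]
  | pred n ih =>
    have e : j + (k : ℤ) * (-(n : ℤ) - 1) = (j - k) + k * (-(n : ℤ)) := by ring
    have h1 : ζ (j - k) = τ⁻¹ (ζ j) := by
      have h2 := h (j - k)
      rw [sub_add_cancel] at h2
      rw [h2, MulAut.inv_apply_self]
    rw [e, ih, h1, zpow_sub_one, MulAut.mul_apply]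

theorem qtl_thm : QTLStmt := by
  intro T P _ _ σ τ Γ hΓ π hπ hst k d hk h
  obtain ⟨R, hRdef⟩ : ∃ R : Subgroup (TSq σ k), ∀ x : TSq σ k, x ∈ R ↔
      ∀ i : ℤ, (x : ℤ → T) i ∈ Γ :=
    ⟨{ carrier := {x | ∀ i : ℤ, (x : ℤ → T) i ∈ Γ}
       one_mem' := fun i => Γ.one_mem
       mul_mem' := fun {a b} ha hb i => Γ.mul_mem (ha i) (hb i)
       inv_mem' := fun {a} ha i => Γ.inv_mem (ha i) }, fun x => Iff.rfl⟩
  have hR : ∀ x, x ∈ R ↔ tsh σ k x ∈ R := by
    intro x
    rw [hRdef, hRdef]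
    constructor
    · intro h1 i
      rw [tsh_apply]
      exact h1 _
    · intro h1 i
      have h2 := h1 (i - 1)
      rw [tsh_apply, sub_add_cancel] at h2
      exact h2
  have hSR : SL (restr (tsh σ k) R hR) d :=
    SL.of_inj R.subtype (fun a b hab => Subtype.ext hab) (fun x => rfl) h
  have hmem : ∀ (x : R) (i : ℤ), ((x : TSq σ k) : ℤ → T) i ∈ Γ := fun x => (hRdef x).1 x.2
  have hρ : ∀ x : Γ, π (restr σ Γ hΓ x) = τ (π x) := hst
  let Θ : R →* TSq τ k :=
    { toFun := fun x => ⟨fun i => π ⟨((x : TSq σ k) : ℤ → T) i, hmem x i⟩, fun i => by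
        have h1 : ((x : TSq σ k) : ℤ → T) (i + k) = σ (((x : TSq σ k) : ℤ → T) i) :=
          (x : TSq σ k).2 i
        have h2 := hst ⟨((x : TSq σ k) : ℤ → T) i, hmem x i⟩
        rw [← h2]
        exact congrArg π (Subtype.ext h1)⟩
      map_one' := by
        apply Subtype.ext
        funext i
        exact map_one π
      map_mul' := by
        intro x y
        apply Subtype.ext
        funext i
        exact map_mul π ⟨((x : TSq σ k) : ℤ → T) i, hmem x i⟩ ⟨((y : TSq σ k) : ℤ → T) i, hmem y i⟩ }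
  have hΘ : ∀ x, Θ (restr (tsh σ k) R hR x) = tsh τ k (Θ x) := fun x => rfl
  have hsurj : Function.Surjective Θ := by
    intro ζ
    choose w hw using fun i : ℤ => hπ ((ζ : ℤ → P) i)
    have hkz : (k : ℤ) ≠ 0 := by exact_mod_cast hk.ne'
    let ρ := restr σ Γ hΓ
    have hη : (fun i : ℤ => (((ρ ^ (i / (k : ℤ))) (w (i % (k : ℤ))) : Γ) : T)) ∈ TSq σ k := by
      intro i
      have e1 : (i + (k : ℤ)) / (k : ℤ) = 1 + i / (k : ℤ) := by
        rw [Int.add_ediv_of_dvd_right (dvd_refl _), Int.ediv_self hkz]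
        ring
      have e2 : (i + (k : ℤ)) % (k : ℤ) = i % (k : ℤ) := by simp
      show (((ρ ^ ((i + (k : ℤ)) / (k : ℤ))) (w ((i + (k : ℤ)) % (k : ℤ))) : Γ) : T) =
        σ (((ρ ^ (i / (k : ℤ))) (w (i % (k : ℤ))) : Γ) : T)
      rw [e1, e2, zpow_add, zpow_one, MulAut.mul_apply]
      rfl
    refine ⟨⟨⟨_, hη⟩, (hRdef _).2 (fun i => Subtype.property _)⟩, ?_⟩
    apply Subtype.ext
    funext i
    show π ((ρ ^ (i / (k : ℤ))) (w (i % (k : ℤ)))) = (ζ : ℤ → P) i
    rw [qtl_zpow π ρ τ hρ, hw]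
    have h1 := qtl_per τ k (ζ : ℤ → P) ζ.2 (i / (k : ℤ)) (i % (k : ℤ))
    rw [Int.emod_add_mul_ediv] at h1
    exact h1.symm
  exact ⟨hSR.1.of_surj Θ hsurj hΘ, hSR.2.of_surj Θ hsurj (qtl_eqv Θ _ _ hΘ)⟩

end Pool.ENR
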